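import Pool.Agent.H27.TM.TargetsG
import Pool.Agent.H31.SW.TargetsG

/-!
# The points of the dual lattice (module ZT)
-/

set_option autoImplicit false

open NumberField NumberField.InfinitePlace NumberField.Units
  NumberField.Units.dirichletUnitTheorem MeasureTheory Set Filter Complex
open scoped nonZeroDivisors ENNReal

namespace Pool.Agent.H49.TMB.ZT

open Pool.Agent.H25.HK Pool.Agent.H23.LB Pool.Agent.H23.LC
open Pool.Agent.H28.RC (Rep ft idl)
open Pool.Agent.H29.DW (dg Rl lf wv Pos Wg cpar Ci om zs rv Wt)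
open Pool.Agent.H31.SW (EE itg FF HD DB DS dif Pf GG G2 DD PP pF dK pz ps Tf WG)
open Pool.Agent.H27.TM

theorem tail_le {X : Type} (P Q : X → Prop) (f g : X → ℝ) (w B : ℝ) (hw : 0 ≤ w)
    (hQP : ∀ x, Q x → P x) (hg0 : ∀ x, 0 ≤ g x)
    (sf : Summable (fun x : {x // P x} => f x.1)) (sg : Summable (fun x : {x // P x} => g x.1))
    (hB : ∑' x : {x // P x}, g x.1 ≤ B) (h : ∀ x, Q x → f x ≤ w * g x) :
    ∑' x : {x // Q x}, f x.1 ≤ w * B := by
  let i : {x // Q x} → {x // P x} := fun x => ⟨x.1, hQP x.1 x.2⟩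
  have hi : Function.Injective i := fun x y hxy =>
    Subtype.ext (congrArg (fun z : {x // P x} => z.1) hxy)
  have s1 : Summable (fun x : {x // Q x} => f x.1) := sf.comp_injective hi
  have s2 : Summable (fun x : {x // Q x} => g x.1) := sg.comp_injective hi
  calc ∑' x : {x // Q x}, f x.1 ≤ ∑' x : {x // Q x}, w * g x.1 :=
        Summable.tsum_le_tsum (fun x => h x.1 x.2) s1 (s2.mul_left _)
    _ = w * ∑' x : {x // Q x}, g x.1 := tsum_mul_left
    _ ≤ w * B := by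
        refine mul_le_mul_of_nonneg_left (le_trans ?_ hB) hw
        exact Summable.tsum_le_tsum_of_inj i hi (fun c _ => hg0 c.1) (fun _ => le_rfl) s2 sg

section

variable {K : Type} [Field K] [NumberField K]

theorem wv_one (v : InfinitePlace K) (x : K) :
    wv v x (fun _ => 0) (fun _ => 1) = v.embedding x := by
  simp [wv]

theorem dg_pos (r : Bool) : (1 : ℝ) ≤ (dg r : ℝ) := by
  cases r <;> simp [dg]

theorem two_pi_dg (r : Bool) : (1 : ℝ) ≤ 2 * Real.pi * (dg r : ℝ) := by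
  have h1 := dg_pos r
  have h2 := Real.pi_gt_three
  nlinarith

theorem norm_mc {α : InfinitePlace K → ℝ} (hα : ∀ v, 0 < α v) (x : K) (v : InfinitePlace K) :
    ‖mc α x v‖ = 2 * Real.pi * dg (rv v) / α v * ‖v.embedding x‖ := by
  unfold mc
  rw [norm_mul, Complex.norm_real, Real.norm_eq_abs, abs_of_nonneg]
  have := two_pi_dg (rv v)
  have := hα v
  positivity

theorem bt_one (α τ : InfinitePlace K → ℝ) (v : InfinitePlace K) : 1 ≤ bt α τ v :=
  le_max_left _ _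

theorem bt_pos (α τ : InfinitePlace K → ℝ) (v : InfinitePlace K) : 0 < bt α τ v :=
  lt_of_lt_of_le one_pos (bt_one α τ v)

theorem PP_mono {R S : InfinitePlace K → ℝ} (h0 : ∀ v, 0 ≤ R v) (h : ∀ v, R v ≤ S v) :
    PP R ≤ PP S := by
  unfold PP
  exact Finset.prod_le_prod (fun v _ => pow_nonneg (h0 v) _)
    (fun v _ => pow_le_pow_left₀ (h0 v) (h v) _)

theorem PP_nonneg {R : InfinitePlace K → ℝ} (h0 : ∀ v, 0 ≤ R v) : 0 ≤ PP R := by
  unfold PP
  exact Finset.prod_nonneg (fun v _ => pow_nonneg (h0 v) _)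

theorem PP_mul (R S : InfinitePlace K → ℝ) : PP (fun v => R v * S v) = PP R * PP S := by
  unfold PP
  rw [← Finset.prod_mul_distrib]
  exact Finset.prod_congr rfl (fun v _ => mul_pow _ _ _)

theorem PP_const (W : ℝ) : PP (fun _ : InfinitePlace K => W) = W ^ Module.finrank ℚ K := by
  unfold PP
  rw [Finset.prod_pow_eq_pow_sum, sum_mult_eq]

theorem one_le_dK (K : Type) [Field K] [NumberField K] : 1 ≤ dK K := by
  have h : discr K ≠ 0 := discr_ne_zero K
  have h2 : (1 : ℤ) ≤ |discr K| := Int.one_le_abs h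
  unfold dK
  exact_mod_cast h2

theorem neg_pow_split (k : ℕ) (hk : 5 ≤ k) {W x : ℝ} (hW : 1 ≤ W) (hx : W ≤ x) :
    x ^ (-(k : ℝ)) ≤ W ^ (-((k : ℝ) - 5)) * x ^ (-((5 : ℕ) : ℝ)) := by
  have hW0 : 0 < W := lt_of_lt_of_le one_pos hW
  have hx0 : 0 < x := lt_of_lt_of_le hW0 hx
  have e : x ^ (-(k : ℝ)) = x ^ (-((k : ℝ) - 5)) * x ^ (-((5 : ℕ) : ℝ)) := by
    rw [← Real.rpow_add hx0]
    congr 1
    push_cast
    ring
  rw [e]
  refine mul_le_mul_of_nonneg_right ?_ (Real.rpow_nonneg hx0.le _)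
  have hk5 : (5 : ℝ) ≤ k := by exact_mod_cast hk
  exact Real.rpow_le_rpow_of_nonpos hW0 hx (by linarith)

theorem prod_split (k : ℕ) (hk : 5 ≤ k) {W : ℝ} (hW : 1 ≤ W) (x : InfinitePlace K → ℝ)
    (hx : ∀ v, 0 ≤ x v) (h : ¬ ∀ v, x v ≤ W) :
    ∏ v, (1 + x v) ^ (-(k : ℝ)) ≤
      W ^ (-((k : ℝ) - 5)) * ∏ v, (1 + x v) ^ (-((5 : ℕ) : ℝ)) := by
  have h1 : ∀ v, 1 ≤ 1 + x v := fun v => by linarith [hx v]
  rw [Real.finsetProd_rpow Finset.univ (fun v => 1 + x v) (fun v _ => by linarith [h1 v]) _,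
    Real.finsetProd_rpow Finset.univ (fun v => 1 + x v) (fun v _ => by linarith [h1 v]) _]
  refine neg_pow_split k hk hW ?_
  push Not at h
  obtain ⟨v₀, hv₀⟩ := h
  classical
  rw [← Finset.mul_prod_erase Finset.univ (fun v => 1 + x v) (Finset.mem_univ v₀)]
  have h2 : 1 ≤ ∏ v ∈ Finset.univ.erase v₀, (1 + x v) :=
    Finset.prod_induction (fun v => 1 + x v) (fun t => 1 ≤ t)
      (fun a b ha hb => one_le_mul_of_one_le_of_one_le ha hb) le_rfl (fun v _ => h1 v)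
  have h3 : W ≤ 1 + x v₀ := by linarith
  have h4 : 0 ≤ 1 + x v₀ := by linarith [h1 v₀]
  exact h3.trans (le_mul_of_one_le_right h4 h2)

end

theorem pf_ZT (hNZ : M_NZ) (hWS : Pool.Agent.H31.SW.W_WS) (hNL : M_NL) : M_ZT := by
  intro n k hn hk
  obtain ⟨C₁, hC₁, h1⟩ := hNZ n hn
  obtain ⟨C₂, hC₂, h2⟩ := hWS n hn
  refine ⟨(C₁ + C₂) * 2 ^ n, by positivity, ?_⟩
  intro K _ _ hK α τ W hα hW
  obtain ⟨hN0, -, hDD, -, -⟩ := hNL K
  have hPos : Pos (fun _ : InfinitePlace K => (1 : ℂ)) :=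
    ⟨fun _ => norm_one, fun _ _ => Complex.one_im⟩
  have hD0 : DD (NN K) (fun _ => 0) = 2 ^ n * dK K := by
    rw [hDD, hK]
    simp
  have hdK := one_le_dK K
  have hbt := bt_pos α τ
  have hPα : 0 ≤ PP α := PP_nonneg (fun v => (hα v).le)
  have hPb : 0 ≤ PP (bt α τ) := PP_nonneg (fun v => (hbt v).le)
  have hc : ∀ v : InfinitePlace K, 1 ≤ 2 * Real.pi * (dg (rv v) : ℝ) := fun v => two_pi_dg _
  -- the radii
  have hJ0 : ∀ v : InfinitePlace K, 0 < bt α τ v * α v / (2 * Real.pi * dg (rv v)) := by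
    intro v
    have := hc v
    have := hα v
    have := hbt v
    positivity
  have hJ : PP (fun v => bt α τ v * α v / (2 * Real.pi * dg (rv v))) ≤ PP α * PP (bt α τ) := by
    rw [mul_comm (PP α), ← PP_mul]
    refine PP_mono (fun v => (hJ0 v).le) (fun v => ?_)
    exact div_le_self (mul_nonneg (hbt v).le (hα v).le) (hc v)
  have hq : ∀ (x : K) (v : InfinitePlace K), ‖mc α x v‖ / bt α τ v =
      ‖wv v x (fun _ => 0) (fun _ => 1)‖ / (bt α τ v * α v / (2 * Real.pi * dg (rv v))) := by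
    intro x v
    rw [norm_mc hα, wv_one]
    have h3 := hc v
    have h4 := hα v
    have h5 := hbt v
    have h6 : (2 * Real.pi * (dg (rv v) : ℝ)) ≠ 0 := by positivity
    field_simp
  have hset : {ν : K | ν ∈ NN K ∧ ν ≠ 0 ∧ ∀ v, ‖mc α ν v‖ ≤ W * bt α τ v} =
      {x : K | x ∈ NN K ∧ x ≠ 0 ∧ ∀ v, ‖wv v x (fun _ => 0) (fun _ => 1)‖ ≤
        W * (bt α τ v * α v / (2 * Real.pi * dg (rv v)))} := by
    ext x
    simp only [Set.mem_ofPred_eq]
    refine and_congr_right fun _ => and_congr_right fun _ => forall_congr' fun v => ?_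
    rw [← div_le_iff₀ (hbt v), hq, div_le_iff₀ (hJ0 v)]
  obtain ⟨hfin, hcard⟩ := h1 K hK (NN K) (fun _ => 0) (fun _ => 1)
    (fun v => W * (bt α τ v * α v / (2 * Real.pi * dg (rv v)))) hN0 hPos
    (fun v => mul_nonneg (by linarith) (hJ0 v).le)
  have hWn : PP (fun v : InfinitePlace K => W * (bt α τ v * α v / (2 * Real.pi * dg (rv v)))) ≤
      W ^ n * (PP α * PP (bt α τ)) := by
    rw [PP_mul (fun _ => W), PP_const, hK]
    exact mul_le_mul_of_nonneg_left hJ (by positivity)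
  have hS : ∀ j : ℕ, 3 ≤ j → Summable (fun x : {x : K // x ∈ NN K} => ∏ v : InfinitePlace K,
      (1 + ‖mc α x.1 v‖ / bt α τ v) ^ (-(j : ℝ))) ∧
      ∑' x : {x : K // x ∈ NN K}, ∏ v : InfinitePlace K,
        (1 + ‖mc α x.1 v‖ / bt α τ v) ^ (-(j : ℝ)) ≤
        C₂ * (1 + 2 ^ n * dK K * (PP α * PP (bt α τ))) := by
    intro j hj
    obtain ⟨s1, s2⟩ := h2 K hK (NN K) (fun _ => 0) (fun _ => 1)
      (fun v => bt α τ v * α v / (2 * Real.pi * dg (rv v))) j hN0 hPos hJ0 hj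
    have e : (fun x : {x : K // x ∈ NN K} => ∏ v : InfinitePlace K,
        (1 + ‖mc α x.1 v‖ / bt α τ v) ^ (-(j : ℝ))) =
        (fun x : {x : K // x ∈ NN K} => ∏ v : InfinitePlace K,
        (1 + ‖wv v x.1 (fun _ => 0) (fun _ => 1)‖ /
          (bt α τ v * α v / (2 * Real.pi * dg (rv v)))) ^ (-(j : ℝ))) := by
      funext x
      exact Finset.prod_congr rfl (fun v _ => by rw [hq])
    rw [e]
    refine ⟨s1, s2.trans ?_⟩
    rw [hD0]
    refine mul_le_mul_of_nonneg_left ?_ (by linarith)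
    have : 0 ≤ 2 ^ n * dK K := by positivity
    linarith [mul_le_mul_of_nonneg_left hJ this]
  refine ⟨?_, ?_, (hS k (by omega)).1, ?_⟩
  · rw [hset]
    exact hfin
  · rw [hset]
    refine hcard.trans ?_
    rw [hD0]
    have a1 : 0 ≤ 2 ^ n * dK K := by positivity
    have a2 := mul_le_mul_of_nonneg_left hWn a1
    have a3 : 0 ≤ 2 ^ n * dK K * (W ^ n * (PP α * PP (bt α τ))) :=
      mul_nonneg a1 (mul_nonneg (by positivity) (mul_nonneg hPα hPb))
    calc C₁ * (2 ^ n * dK K *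
          PP (fun v : InfinitePlace K => W * (bt α τ v * α v / (2 * Real.pi * dg (rv v)))))
        ≤ C₁ * (2 ^ n * dK K * (W ^ n * (PP α * PP (bt α τ)))) :=
          mul_le_mul_of_nonneg_left a2 (by linarith)
      _ ≤ (C₁ + C₂) * (2 ^ n * dK K * (W ^ n * (PP α * PP (bt α τ)))) :=
          mul_le_mul_of_nonneg_right (by linarith) a3
      _ = (C₁ + C₂) * 2 ^ n * (dK K * (PP α * PP (bt α τ)) * W ^ n) := by ring
  · obtain ⟨s1, s2⟩ := hS 5 (by norm_num)
    set g : K → ℝ := fun x => ∏ v : InfinitePlace K,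
      (1 + ‖mc α x v‖ / bt α τ v) ^ (-((5 : ℕ) : ℝ)) with hg
    have hg0 : ∀ x, 0 ≤ g x := fun x => Finset.prod_nonneg (fun v _ =>
      Real.rpow_nonneg (by
        have := div_nonneg (norm_nonneg (mc α x v)) (hbt v).le
        linarith) _)
    have hW0 : 0 ≤ W ^ (-((k : ℝ) - 5)) := Real.rpow_nonneg (by linarith) _
    have key := tail_le (fun x : K => x ∈ NN K)
      (fun ν : K => ν ∈ NN K ∧ ¬ ∀ v, ‖mc α ν v‖ ≤ W * bt α τ v)
      (fun x => ∏ v : InfinitePlace K, (1 + ‖mc α x v‖ / bt α τ v) ^ (-(k : ℝ))) g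
      (W ^ (-((k : ℝ) - 5))) (C₂ * (1 + 2 ^ n * dK K * (PP α * PP (bt α τ)))) hW0
      (fun x hx => hx.1) hg0 (hS k (by omega)).1 s1 s2 (by
        intro x hx
        refine prod_split k hk hW (fun v => ‖mc α x v‖ / bt α τ v)
          (fun v => div_nonneg (norm_nonneg _) (hbt v).le) ?_
        intro h
        exact hx.2 (fun v => (div_le_iff₀ (hbt v)).1 (h v)))
    calc ∑' x : {ν : K // ν ∈ NN K ∧ ¬ ∀ v, ‖mc α ν v‖ ≤ W * bt α τ v},
          ∏ v : InfinitePlace K, (1 + ‖mc α x.1 v‖ / bt α τ v) ^ (-(k : ℝ))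
        ≤ W ^ (-((k : ℝ) - 5)) * (C₂ * (1 + 2 ^ n * dK K * (PP α * PP (bt α τ)))) := key
      _ ≤ W ^ (-((k : ℝ) - 5)) * ((C₁ + C₂) * 2 ^ n * (dK K * (1 + PP α * PP (bt α τ)))) := by
          refine mul_le_mul_of_nonneg_left ?_ hW0
          have b1 : (1 : ℝ) ≤ 2 ^ n := one_le_pow₀ (by norm_num)
          have b2 : 0 ≤ PP α * PP (bt α τ) := mul_nonneg hPα hPb
          have b3 : 1 + 2 ^ n * dK K * (PP α * PP (bt α τ)) ≤
              2 ^ n * (dK K * (1 + PP α * PP (bt α τ))) := by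
            have b4 : 1 ≤ 2 ^ n * dK K := one_le_mul_of_one_le_of_one_le b1 hdK
            have b5 : (2 : ℝ) ^ n * (dK K * (1 + PP α * PP (bt α τ))) =
                2 ^ n * dK K + 2 ^ n * dK K * (PP α * PP (bt α τ)) := by ring
            rw [b5]
            exact add_le_add b4 le_rfl
          calc C₂ * (1 + 2 ^ n * dK K * (PP α * PP (bt α τ)))
              ≤ C₂ * (2 ^ n * (dK K * (1 + PP α * PP (bt α τ)))) :=
                mul_le_mul_of_nonneg_left b3 (by linarith)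
            _ ≤ (C₁ + C₂) * (2 ^ n * (dK K * (1 + PP α * PP (bt α τ)))) :=
                mul_le_mul_of_nonneg_right (by linarith) (by positivity)
            _ = (C₁ + C₂) * 2 ^ n * (dK K * (1 + PP α * PP (bt α τ))) := by ring
      _ = (C₁ + C₂) * 2 ^ n * (W ^ (-((k : ℝ) - 5)) * (dK K * (1 + PP α * PP (bt α τ)))) := by
          ring

end Pool.Agent.H49.TMB.ZT
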